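import Pool.Agent.Helper834.Gen.Four

/-!
Coverings of the plane whose sections by lines are rational curves: the braids of the special
points of the branch curve never generate the liftable braid group.
-/

namespace Pool.Agent.Results.MP_d28408_gt.ScrollProper

open Pool.Agent.Helper496.BraidFact Pool.Agent.Helper834 Pool.Agent.Helper834.Gen

/-- For every simple covering of the plane with `N + 1 ≥ 4` sheets, branch curve of degree `2 N`
and the standard fibre monodromy, the braid monodromy factors of the branch curve generate a
proper subgroup of the liftable braid group. -/
theorem result {N : ℕ} (hN : 3 ≤ N) (X : Covering (N + 1) (2 * N) 1) (hX : X.θ = std N) :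
    Subgroup.closure {b | ∃ p ∈ X.F, p.braid = b} < LB X.θ :=
  proper_all hN X hX

end Pool.Agent.Results.MP_d28408_gt.ScrollProper
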